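import Pool.Agent.Lib.MP_d1a06a_al.Glue

namespace Pool.Agent.Results.MP_d1a06a_al.NotLimitPoint

open Pool.Agent.Lib.MP_d1a06a_al

universe v u

/-- `√2` is not a limit point of the set `X_s` of global dimensions of spherical fusion
categories over `ℂ`. -/
theorem result : ¬ AccPt (Real.sqrt 2) (Filter.principal sphericalDims.{v, u}) :=
  not_accPt

end Pool.Agent.Results.MP_d1a06a_al.NotLimitPoint
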